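import Pool.Agent.Helper31.BC.Stmts2

/-!
# CPL: if all variables are fixed, there is a branch-and-cut proof
-/

set_option autoImplicit false

namespace Pool.Agent.Helper31.BC

/-- more available inequalities -/
theorem cpl_mono {n : ℕ} {K : (Pair n → ℤ) → Prop} {Γ : Set (Ineq n)} {t : ℕ}
    (h : Refutes K Γ t) : ∀ Γ' : Set (Ineq n), Γ ⊆ Γ' → Refutes K Γ' t := by
  induction h with
  | done u hu h =>
    intro Γ' hΓ
    exact Refutes.done u (hΓ hu) h
  | cut u w l hu hw h _ ih =>
    intro Γ' hΓ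
    exact Refutes.cut u w l (hΓ hu) (hΓ hw) h (ih _ (Set.insert_subset_insert hΓ))
  | branch a b _ _ ih1 ih2 =>
    intro Γ' hΓ
    exact Refutes.branch a b (ih1 _ (Set.insert_subset_insert hΓ))
      (ih2 _ (Set.insert_subset_insert hΓ))

/-- balanced digits -/
theorem cpl_digits (R : ℕ) : ∀ (m : ℕ) (d : ℕ → ℤ), (∀ i < m, |d i| ≤ R) →
    ∑ i ∈ Finset.range m, (2 * (R : ℤ) + 1) ^ i * d i = 0 → ∀ i < m, d i = 0 := by
  intro m
  induction m with
  | zero =>
    intro d _ _ i hi
    omega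
  | succ m ih =>
    intro d hd hs
    rw [Finset.sum_range_succ'] at hs
    have h1 : ∑ i ∈ Finset.range m, (2 * (R : ℤ) + 1) ^ (i + 1) * d (i + 1) =
        (2 * (R : ℤ) + 1) * ∑ i ∈ Finset.range m, (2 * (R : ℤ) + 1) ^ i * d (i + 1) := by
      rw [Finset.mul_sum]
      refine Finset.sum_congr rfl ?_
      intro i _
      ring
    rw [h1, pow_zero, one_mul] at hs
    set T := ∑ i ∈ Finset.range m, (2 * (R : ℤ) + 1) ^ i * d (i + 1) with hT
    have h0 : d 0 = 0 := by
      have h2 := hd 0 (Nat.succ_pos m)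
      rw [abs_le] at h2
      have h3 : d 0 = (2 * (R : ℤ) + 1) * (-T) := by linarith
      have h4 : -T = 0 := by
        by_contra hne
        rcases lt_or_gt_of_ne hne with h5 | h5
        · have h6 : (2 * (R : ℤ) + 1) * (-T) ≤ (2 * (R : ℤ) + 1) * (-1) :=
            mul_le_mul_of_nonneg_left (by omega) (by positivity)
          have hR : (0 : ℤ) ≤ R := Int.natCast_nonneg R
          linarith
        · have h6 : (2 * (R : ℤ) + 1) * 1 ≤ (2 * (R : ℤ) + 1) * (-T) :=
            mul_le_mul_of_nonneg_left (by omega) (by positivity)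
          have hR : (0 : ℤ) ≤ R := Int.natCast_nonneg R
          linarith
      rw [h3, h4, mul_zero]
    have hT0 : T = 0 := by
      rw [h0, add_zero] at hs
      rcases mul_eq_zero.mp hs with h5 | h5
      · have hR : (0 : ℤ) ≤ R := Int.natCast_nonneg R
        omega
      · exact h5
    have h7 := ih (fun i => d (i + 1)) (fun i hi => hd (i + 1) (by omega)) hT0
    intro i hi
    rcases Nat.eq_zero_or_pos i with h8 | h8
    · rw [h8, h0]
    · obtain ⟨j, rfl⟩ : ∃ j, i = j + 1 := ⟨i - 1, by omega⟩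
      exact h7 j (by omega)

/-- the weights -/
noncomputable def cplW (n R : ℕ) (e : Pair n) : ℤ :=
  (2 * (R : ℤ) + 1) ^ ((Fintype.equivFin (Pair n) e : ℕ))

theorem cpl_unique (n R : ℕ) (x z : Pair n → ℤ) (hR : ∀ e, |x e - z e| ≤ R)
    (hs : ∑ e : Pair n, cplW n R e * (x e - z e) = 0) : x = z := by
  obtain ⟨φ, hφ⟩ : ∃ φ : Pair n ≃ Fin (Fintype.card (Pair n)), φ = Fintype.equivFin (Pair n) :=
    ⟨_, rfl⟩
  let d : ℕ → ℤ := fun i => if h : i < Fintype.card (Pair n) then x (φ.symm ⟨i, h⟩) - z (φ.symm ⟨i, h⟩) else 0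
  have h1 : ∑ i ∈ Finset.range (Fintype.card (Pair n)),
      (2 * (R : ℤ) + 1) ^ i * d i = 0 := by
    rw [Finset.sum_range]
    rw [← hs, ← Equiv.sum_comp φ]
    refine Finset.sum_congr rfl ?_
    intro e _
    have h2 : (φ e : ℕ) < Fintype.card (Pair n) := (φ e).2
    simp only [d, dif_pos h2, cplW, ← hφ]
    have h3 : φ.symm ⟨(φ e : ℕ), h2⟩ = e := by
      have h4 : (⟨(φ e : ℕ), h2⟩ : Fin (Fintype.card (Pair n))) = φ e := rfl
      rw [h4, Equiv.symm_apply_apply]
    rw [h3]
  have h2 := cpl_digits R (Fintype.card (Pair n)) d (by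
    intro i hi
    simp only [d, dif_pos hi]
    exact hR _) h1
  funext e
  have h3 := h2 (φ e : ℕ) (φ e).2
  have h5 : (φ e : ℕ) < Fintype.card (Pair n) := (φ e).2
  simp only [d, dif_pos h5] at h3
  have h4 : φ.symm ⟨(φ e : ℕ), h5⟩ = e := by
    have h6 : (⟨(φ e : ℕ), h5⟩ : Fin (Fintype.card (Pair n))) = φ e := rfl
    rw [h6, Equiv.symm_apply_apply]
  rw [h4] at h3
  linarith

open Classical in
/-- the partial sums, with sign `c` -/
noncomputable def cplU (n R : ℕ) (z : Pair n → ℤ) (c : ℝ) (T : Finset (Pair n)) : Ineq n :=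
  ⟨fun e => if e ∈ T then c * (cplW n R e : ℝ) else 0, ∑ e ∈ T, c * (cplW n R e : ℝ) * z e⟩

theorem cpl_U_sum (n R : ℕ) (z : Pair n → ℤ) (c : ℝ) (T : Finset (Pair n)) (x : Pair n → ℤ) :
    (cplU n R z c T).Holds x ↔
      ∑ e ∈ T, c * (cplW n R e : ℝ) * z e ≤ ∑ e ∈ T, c * (cplW n R e : ℝ) * x e := by
  classical
  unfold Ineq.Holds cplU
  have h1 : ∑ e : Pair n, (if e ∈ T then c * (cplW n R e : ℝ) else 0) * (x e : ℝ) =
      ∑ e ∈ T, c * (cplW n R e : ℝ) * x e := by
    simp only [ite_mul, zero_mul]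
    rw [Finset.sum_ite_mem, Finset.univ_inter]
  simp only
  rw [← h1]

theorem cplW_nonneg (n R : ℕ) (e : Pair n) : (0 : ℝ) ≤ (cplW n R e : ℝ) := by
  unfold cplW
  positivity

theorem cpl_line (n : ℕ) (z x : Pair n → ℤ) (c : ℝ) (e : Pair n)
    (h : (⟨fun e' => if e' = e then c else 0, c * z e⟩ : Ineq n).Holds x) :
    c * (z e : ℝ) ≤ c * (x e : ℝ) := by
  unfold Ineq.Holds at h
  simp only [ite_mul, zero_mul] at h
  rw [Finset.sum_ite_eq' Finset.univ e (fun e' => c * (x e' : ℝ)),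
    if_pos (Finset.mem_univ e)] at h
  exact h

/-- the partial sums can be derived -/
theorem cpl_derive (n R : ℕ) (K : (Pair n → ℤ) → Prop) (z : Pair n → ℤ) (c : ℝ) (e0 : Pair n)
    (T : Finset (Pair n)) : ∀ Γ : Set (Ineq n),
    (∀ e, (⟨fun e' => if e' = e then c else 0, c * z e⟩ : Ineq n) ∈ Γ) →
    (∃ t, Refutes K (insert (cplU n R z c T) Γ) t) → ∃ t, Refutes K Γ t := by
  classical
  induction T using Finset.induction_on with
  | empty =>
    rintro Γ hΓ ⟨t, ht⟩
    refine ⟨t + 1, Refutes.cut _ _ _ (hΓ e0) (hΓ e0) ?_ ht⟩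
    intro x _ _ _
    rw [cpl_U_sum]
    simp
  | insert e T he ih =>
    rintro Γ hΓ ⟨t, ht⟩
    apply ih Γ hΓ
    have h1 := cpl_mono ht (insert (cplU n R z c (insert e T)) (insert (cplU n R z c T) Γ))
      (Set.insert_subset_insert (Set.subset_insert _ _))
    refine ⟨t + 1, Refutes.cut (cplU n R z c T) _ _ (Set.mem_insert _ _)
      (Set.mem_insert_of_mem _ (hΓ e)) ?_ h1⟩
    intro x _ hU hL
    rw [cpl_U_sum] at hU ⊢
    rw [Finset.sum_insert he, Finset.sum_insert he]
    have h2 := cpl_line n z x c e hL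
    have h3 := mul_le_mul_of_nonneg_left h2 (cplW_nonneg n R e)
    have h4 : c * (cplW n R e : ℝ) * (z e : ℝ) ≤ c * (cplW n R e : ℝ) * (x e : ℝ) := by
      calc c * (cplW n R e : ℝ) * (z e : ℝ) = (cplW n R e : ℝ) * (c * (z e : ℝ)) := by ring
        _ ≤ (cplW n R e : ℝ) * (c * (x e : ℝ)) := h3
        _ = c * (cplW n R e : ℝ) * (x e : ℝ) := by ring
    exact add_le_add h4 hU

theorem st_CPL : ST_CPL := by
  classical
  intro n R K Γ z hK hz h1 h2
  by_cases hemp : Nonempty (Pair n)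
  · obtain ⟨e0⟩ := hemp
    have h1' : ∀ e, (⟨fun e' => if e' = e then (1 : ℝ) else 0, (1 : ℝ) * z e⟩ : Ineq n) ∈ Γ := by
      intro e
      have := h1 e
      rw [one_mul]
      exact this
    have h2' : ∀ e, (⟨fun e' => if e' = e then (-1 : ℝ) else 0, (-1 : ℝ) * z e⟩ : Ineq n) ∈ Γ := by
      intro e
      have := h2 e
      rw [neg_one_mul]
      exact this
    apply cpl_derive n R K z 1 e0 Finset.univ Γ h1'
    apply cpl_derive n R K z (-1) e0 Finset.univ _ (fun e => Set.mem_insert_of_mem _ (h2' e))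
    refine ⟨1 + 1, Refutes.cut (cplU n R z (-1) Finset.univ) (cplU n R z 1 Finset.univ)
      ⟨fun _ => 0, 1⟩ (Set.mem_insert _ _) (Set.mem_insert_of_mem _ (Set.mem_insert _ _)) ?_
      (Refutes.done ⟨fun _ => 0, 1⟩ (Set.mem_insert _ _) ?_)⟩
    · intro x hx hV hU
      exfalso
      rw [cpl_U_sum] at hU hV
      apply hz
      have hxz : x = z := by
        apply cpl_unique n R x z (hK x hx)
        have h3 : ∑ e : Pair n, (-1 : ℝ) * (cplW n R e : ℝ) * (z e : ℝ) =
            - ∑ e : Pair n, (1 : ℝ) * (cplW n R e : ℝ) * (z e : ℝ) := by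
          rw [← Finset.sum_neg_distrib]
          refine Finset.sum_congr rfl ?_
          intro e _
          ring
        have h4 : ∑ e : Pair n, (-1 : ℝ) * (cplW n R e : ℝ) * (x e : ℝ) =
            - ∑ e : Pair n, (1 : ℝ) * (cplW n R e : ℝ) * (x e : ℝ) := by
          rw [← Finset.sum_neg_distrib]
          refine Finset.sum_congr rfl ?_
          intro e _
          ring
        rw [h3, h4] at hV
        have h5 : ∑ e : Pair n, (1 : ℝ) * (cplW n R e : ℝ) * (x e : ℝ) =
            ∑ e : Pair n, (1 : ℝ) * (cplW n R e : ℝ) * (z e : ℝ) := by linarith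
        have h6 : ((∑ e : Pair n, cplW n R e * (x e - z e) : ℤ) : ℝ) = 0 := by
          push_cast
          have h7 : ∑ e : Pair n, (cplW n R e : ℝ) * ((x e : ℝ) - (z e : ℝ)) =
              ∑ e : Pair n, (1 : ℝ) * (cplW n R e : ℝ) * (x e : ℝ) -
                ∑ e : Pair n, (1 : ℝ) * (cplW n R e : ℝ) * (z e : ℝ) := by
            rw [← Finset.sum_sub_distrib]
            refine Finset.sum_congr rfl ?_
            intro e _
            ring
          rw [h7, h5, sub_self]
        exact_mod_cast h6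
      rw [← hxz]
      exact hx
    · intro x _ hh
      unfold Ineq.Holds at hh
      simp at hh
      linarith
  · have hno : ∀ x, ¬ K x := by
      intro x hx
      apply hz
      have : x = z := by
        funext e
        exact absurd ⟨e⟩ hemp
      rw [← this]
      exact hx
    exact ⟨_, Refutes.branch (fun _ => 0) 0
      (Refutes.done _ (Set.mem_insert _ _) (fun x hx => absurd hx (hno x)))
      (Refutes.done _ (Set.mem_insert _ _) (fun x hx => absurd hx (hno x)))⟩

end Pool.Agent.Helper31.BC
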