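import Pool.Agent.Helper31.BC.Stmts
import Pool.Agent.Helper58.Grid.EvalUse

/-!
# CUT: the cut condition of the integral vectors on the lattice
-/

set_option autoImplicit false

namespace Pool.Agent.Helper31.BC

open Pool.Agent.Helper52.Grid
open Pool.Agent.Helper58.Grid

/-- what a bad block looks like -/
theorem cut_bad_spec {s : List Sub} {M : ℕ} {a ch : ℕ → Bool}
    (hM : ∀ k i d, sg s k = some (i, d) → i < 2 * M + 1) {x y : ℕ}
    (h : isBad s a ch x y = true) : ∃ k i, k < s.length ∧ i < 2 * M + 1 ∧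
      x = 5 + 4 * k + 1 ∧ y = 4 + 6 * i + 1 ∧ sg s k = some (i, true) ∧ ch k = true ∧
      bst s a i k = false := by
  unfold isBad at h
  simp only [Bool.and_eq_true, decide_eq_true_eq, Bool.not_eq_true'] at h
  obtain ⟨⟨⟨hx, hy, hx4, hy6, hs⟩, hc⟩, hb⟩ := h
  refine ⟨(x - 5) / 4, (y - 4) / 6, ?_, hM _ _ _ hs, by omega, by omega, hs, hc, hb⟩
  by_contra hlt
  rw [not_lt] at hlt
  have : sg s ((x - 5) / 4) = none := by
    unfold sg
    rw [List.getD_eq_default _ _ hlt]
  rw [this] at hs
  exact absurd hs (by simp)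

theorem cut_bad_use {s : List Sub} {M : ℕ} {a ch : ℕ → Bool}
    (hM : ∀ k i d, sg s k = some (i, d) → i < 2 * M + 1) {x y : ℕ}
    (h : isBad s a ch x (y + 1) = true) :
    hUse s M a ch x y = true ∧ vUse s M a ch x y = true ∧ vUse s M a ch (x + 1) y = true := by
  obtain ⟨k, i, hk, hi, hx, hy, hs, hc, hb⟩ := cut_bad_spec hM h
  have hy' : y = 4 + 6 * i + 0 := by omega
  have hkind : kind (sg s k) i = Kind.dblk := by
    rw [hs]
    simp [kind]
  subst hx
  subst hy'
  refine ⟨?_, ?_, ?_⟩
  · rw [hUse_cell hk hi (by omega) (by omega), hkind, hb, hc]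
    rfl
  · rw [vUse_cell hk hi (by omega) (by omega), hkind, hb, hc]
    rfl
  · rw [show 5 + 4 * k + 1 + 1 = 5 + 4 * k + 2 from rfl,
      vUse_cell hk hi (by omega) (by omega), hkind, hb, hc]
    rfl

theorem cut_bad_mid {s : List Sub} {M : ℕ} {a ch : ℕ → Bool}
    (hM : ∀ k i d, sg s k = some (i, d) → i < 2 * M + 1) {x y : ℕ}
    (h : isBad s a ch x y = true) : 1 ≤ x ∧ 1 ≤ y ∧ isBad s a ch (x - 1) y = false := by
  obtain ⟨k, i, hk, hi, hx, hy, hs, hc, hb⟩ := cut_bad_spec hM h
  refine ⟨by omega, by omega, ?_⟩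
  cases h' : isBad s a ch (x - 1) y with
  | false => rfl
  | true =>
    obtain ⟨k', i', hk', hi', hx', hy', -⟩ := cut_bad_spec hM h'
    omega

/-- the sum estimate: `u`, `v` used edges, `β` bad positions (all with values in `{0, 1}`), `c`, `d` cuts -/
theorem cut_sum (N : ℕ) (u v β c d : ℕ → ℕ → ℤ)
    (hβ : ∀ x y, 0 ≤ β x y) (hc : ∀ x y, 0 ≤ c x y) (hd : ∀ x y, 0 ≤ d x y)
    (hβ0 : ∀ x, β x 0 = 0) (hβx : ∀ y, β 0 y = 0) (hβN : ∀ y, β N y = 0)
    (htri : ∀ x y, β x (y + 1) * c x (y + 1) ≤
      β x (y + 1) * (c x y + d x y + d (x + 1) y)) :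
    ∑ x ∈ Finset.range (N + 1), ∑ y ∈ Finset.range (N + 1),
      (c x y * (u x y - β x (y + 1)) + d x y * (v x y - β x (y + 1) - β (x - 1) (y + 1))) ≤
    ∑ x ∈ Finset.range (N + 1), ∑ y ∈ Finset.range (N + 1),
      (c x y * (u x y - β x y) + d x y * v x y) := by
  have h1 : ∀ x, ∑ y ∈ Finset.range (N + 1), c x y * β x y ≤
      ∑ y ∈ Finset.range (N + 1), β x (y + 1) * (c x y + d x y + d (x + 1) y) := by
    intro x
    rw [Finset.sum_range_succ' (fun y => c x y * β x y) N]
    have h2 : c x 0 * β x 0 = 0 := by rw [hβ0, mul_zero]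
    rw [h2, add_zero, Finset.sum_range_succ]
    have h3 : 0 ≤ β x (N + 1) * (c x N + d x N + d (x + 1) N) :=
      mul_nonneg (hβ _ _) (add_nonneg (add_nonneg (hc _ _) (hd _ _)) (hd _ _))
    have h4 : ∑ y ∈ Finset.range N, c x (y + 1) * β x (y + 1) ≤
        ∑ y ∈ Finset.range N, β x (y + 1) * (c x y + d x y + d (x + 1) y) := by
      refine Finset.sum_le_sum ?_
      intro y _
      rw [mul_comm]
      exact htri x y
    linarith
  have h5 : ∑ x ∈ Finset.range (N + 1), ∑ y ∈ Finset.range (N + 1),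
      β x (y + 1) * d (x + 1) y =
      ∑ x ∈ Finset.range (N + 1), ∑ y ∈ Finset.range (N + 1), β (x - 1) (y + 1) * d x y := by
    rw [Finset.sum_range_succ, Finset.sum_range_succ'
      (fun x => ∑ y ∈ Finset.range (N + 1), β (x - 1) (y + 1) * d x y) N]
    have h6 : ∑ y ∈ Finset.range (N + 1), β N (y + 1) * d (N + 1) y = 0 := by
      refine Finset.sum_eq_zero ?_
      intro y _
      rw [hβN, zero_mul]
    have h7 : ∑ y ∈ Finset.range (N + 1), β (0 - 1) (y + 1) * d 0 y = 0 := by
      refine Finset.sum_eq_zero ?_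
      intro y _
      rw [Nat.zero_sub, hβx, zero_mul]
    rw [h6, h7]
    rfl
  have h8 : ∑ x ∈ Finset.range (N + 1), ∑ y ∈ Finset.range (N + 1), c x y * β x y ≤
      ∑ x ∈ Finset.range (N + 1), ∑ y ∈ Finset.range (N + 1),
        β x (y + 1) * (c x y + d x y + d (x + 1) y) := Finset.sum_le_sum fun x _ => h1 x
  have h9 : ∑ x ∈ Finset.range (N + 1), ∑ y ∈ Finset.range (N + 1),
      β x (y + 1) * (c x y + d x y + d (x + 1) y) =
      ∑ x ∈ Finset.range (N + 1), ∑ y ∈ Finset.range (N + 1),
        (β x (y + 1) * c x y + β x (y + 1) * d x y + β (x - 1) (y + 1) * d x y) := by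
    have e1 : ∀ x y, β x (y + 1) * (c x y + d x y + d (x + 1) y) =
        (β x (y + 1) * c x y + β x (y + 1) * d x y) + β x (y + 1) * d (x + 1) y := by
      intro x y
      ring
    simp only [e1, Finset.sum_add_distrib]
    rw [h5]
  rw [h9] at h8
  have h10 : ∀ x y, c x y * (u x y - β x (y + 1)) +
      d x y * (v x y - β x (y + 1) - β (x - 1) (y + 1)) =
      (c x y * u x y + d x y * v x y) -
        (β x (y + 1) * c x y + β x (y + 1) * d x y + β (x - 1) (y + 1) * d x y) := by
    intro x y
    ring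
  have h11 : ∀ x y, c x y * (u x y - β x y) + d x y * v x y =
      (c x y * u x y + d x y * v x y) - c x y * β x y := by
    intro x y
    ring
  simp only [h10, h11, Finset.sum_sub_distrib]
  linarith

theorem st_CUT (hDEG : ST_DEG) (hCON1 : ST_CON1) (hCON2 : ST_CON2) : ST_CUT := by
  classical
  intro s M a ch hM hs0 hP
  obtain ⟨e1, e2, e3, e4, e5, e6, e7, e8, e9⟩ := hDEG s M a ch hM hs0 hP
  refine ⟨e1, e2, e3, e4, e5, e6, e7, e8, e9, ?_⟩
  rintro N hbox S ⟨p, hp, hSp⟩ ⟨q, hq, hSq⟩
  set u : ℕ → ℕ → ℤ := fun x y => ((hUse s M a ch x y).toNat : ℤ) with hu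
  set v : ℕ → ℕ → ℤ := fun x y => ((vUse s M a ch x y).toNat : ℤ) with hv
  set β : ℕ → ℕ → ℤ := fun x y => ((isBad s a ch x y).toNat : ℤ) with hβ
  set c : ℕ → ℕ → ℤ := fun x y => if (S (x, y) ↔ S (x + 1, y)) then 0 else 1 with hc
  set d : ℕ → ℕ → ℤ := fun x y => if (S (x, y) ↔ S (x, y + 1)) then 0 else 1 with hd
  have hT : ∑ x ∈ Finset.range (N + 1), ∑ y ∈ Finset.range (N + 1),
      ((if (S (x, y) ↔ S (x + 1, y)) then 0 else XH s M a ch x y) +
        (if (S (x, y) ↔ S (x, y + 1)) then 0 else XV s M a ch x y)) =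
      ∑ x ∈ Finset.range (N + 1), ∑ y ∈ Finset.range (N + 1),
        (c x y * (u x y - β x y) + d x y * v x y) := by
    refine Finset.sum_congr rfl ?_
    intro x _
    refine Finset.sum_congr rfl ?_
    intro y _
    congr 1
    · simp only [hc, XH, hu, hβ]
      split_ifs
      · rw [zero_mul]
      · rw [one_mul]
    · simp only [hd, XV, hv]
      split_ifs
      · rw [zero_mul]
      · rw [one_mul]
  have hc0 : ∀ x y, 0 ≤ c x y := by
    intro x y
    simp only [hc]
    split_ifs <;> norm_num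
  have hd0 : ∀ x y, 0 ≤ d x y := by
    intro x y
    simp only [hd]
    split_ifs <;> norm_num
  have hc1 : ∀ x y, c x y ≤ 1 := by
    intro x y
    simp only [hc]
    split_ifs <;> norm_num
  have hβ0 : ∀ x y, 0 ≤ β x y := fun x y => Int.natCast_nonneg _
  have hβ1 : ∀ x y, isBad s a ch x y = true → β x y = 1 := by
    intro x y h
    simp only [hβ, h]
    rfl
  have hβ2 : ∀ x y, isBad s a ch x y = false → β x y = 0 := by
    intro x y h
    simp only [hβ, h]
    rfl
  have hinH : ∀ x y, hUse s M a ch x y = true → x < N ∧ y ≤ N := by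
    intro x y h
    refine hbox.hN x y ?_
    intro h4
    unfold hUse at h
    rw [h4] at h
    simp at h
  have hinV : ∀ x y, vUse s M a ch x y = true → x ≤ N ∧ y < N := by
    intro x y h
    refine hbox.vN x y ?_
    intro h4
    unfold vUse at h
    rw [h4] at h
    simp at h
  have hle := cut_sum N u v β c d hβ0 hc0 hd0
    (by
      intro x
      refine hβ2 x 0 ?_
      cases h : isBad s a ch x 0 with
      | false => rfl
      | true =>
        have := (cut_bad_mid hM h).2.1
        omega)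
    (by
      intro y
      refine hβ2 0 y ?_
      cases h : isBad s a ch 0 y with
      | false => rfl
      | true =>
        have := (cut_bad_mid hM h).1
        omega)
    (by
      intro y
      refine hβ2 N y ?_
      cases h : isBad s a ch N y with
      | false => rfl
      | true =>
        have h1 := (cut_bad_mid hM h).2.1
        obtain ⟨y', rfl⟩ : ∃ y', y = y' + 1 := ⟨y - 1, by omega⟩
        have h2 := (cut_bad_use hM h).2.2
        have h3 := (hinV _ _ h2).1
        omega)
    (by
      intro x y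
      rcases Bool.eq_false_or_eq_true (isBad s a ch x (y + 1)) with h | h
      · rw [hβ1 _ _ h, one_mul, one_mul]
        simp only [hc, hd]
        by_cases h1 : S (x, y) <;> by_cases h2 : S (x + 1, y) <;> by_cases h3 : S (x, y + 1) <;>
          by_cases h4 : S (x + 1, y + 1) <;> simp [h1, h2, h3, h4]
      · rw [hβ2 _ _ h, zero_mul, zero_mul])
  -- the terms of the lower bound are nonnegative
  have hn1 : ∀ x y, 0 ≤ c x y * (u x y - β x (y + 1)) := by
    intro x y
    refine mul_nonneg (hc0 x y) ?_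
    rcases Bool.eq_false_or_eq_true (isBad s a ch x (y + 1)) with h | h
    · have h1 := (cut_bad_use hM h).1
      rw [hβ1 _ _ h]
      simp only [hu, h1]
      norm_num
    · rw [hβ2 _ _ h, sub_zero]
      exact Int.natCast_nonneg _
  have hn2 : ∀ x y, 0 ≤ d x y * (v x y - β x (y + 1) - β (x - 1) (y + 1)) := by
    intro x y
    refine mul_nonneg (hd0 x y) ?_
    rcases Bool.eq_false_or_eq_true (isBad s a ch x (y + 1)) with h | h
    · have h1 := (cut_bad_use hM h).2.1
      have h2 := (cut_bad_mid hM h).2.2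
      rw [hβ1 _ _ h, hβ2 _ _ h2]
      simp only [hv, h1]
      norm_num
    · rw [hβ2 _ _ h, sub_zero]
      rcases Bool.eq_false_or_eq_true (isBad s a ch (x - 1) (y + 1)) with h' | h'
      · have h3 := (cut_bad_mid hM h').1
        obtain ⟨x', rfl⟩ : ∃ x', x = x' + 1 := ⟨x - 1, by omega⟩
        have h4 := (cut_bad_use hM h').2.2
        rw [hβ1 _ _ h']
        rw [Nat.add_sub_cancel] at h4
        simp only [hv, h4]
        norm_num
      · rw [hβ2 _ _ h', sub_zero]
        exact Int.natCast_nonneg _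
  rw [hT]
  by_contra hcon
  rw [not_lt] at hcon
  have hR : ∑ x ∈ Finset.range (N + 1), ∑ y ∈ Finset.range (N + 1),
      (c x y * (u x y - β x (y + 1)) + d x y * (v x y - β x (y + 1) - β (x - 1) (y + 1))) = 0 := by
    refine le_antisymm (le_trans hle hcon) ?_
    refine Finset.sum_nonneg ?_
    intro x _
    refine Finset.sum_nonneg ?_
    intro y _
    exact add_nonneg (hn1 x y) (hn2 x y)
  have hterm : ∀ x y, x < N + 1 → y < N + 1 → c x y * (u x y - β x (y + 1)) = 0 ∧
      d x y * (v x y - β x (y + 1) - β (x - 1) (y + 1)) = 0 := by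
    intro x y hx hy
    rw [Finset.sum_eq_zero_iff_of_nonneg (fun x _ => Finset.sum_nonneg fun y _ =>
      add_nonneg (hn1 x y) (hn2 x y))] at hR
    have h1 := hR x (Finset.mem_range.mpr hx)
    rw [Finset.sum_eq_zero_iff_of_nonneg (fun y _ => add_nonneg (hn1 x y) (hn2 x y))] at h1
    have h2 := h1 y (Finset.mem_range.mpr hy)
    have h3 := hn1 x y
    have h4 := hn2 x y
    constructor <;> linarith
  have hSH : ∀ x y, hUse s M a ch x y = true → OKh s a ch x y → (S (x, y) ↔ S (x + 1, y)) := by
    intro x y h1 h2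
    have h3 := hinH x y h1
    have h4 := (hterm x y (by omega) (by omega)).1
    rw [hβ2 x (y + 1) h2] at h4
    by_contra h5
    simp only [hc, hu, h1, if_neg h5] at h4
    norm_num at h4
  have hSV : ∀ x y, vUse s M a ch x y = true → OKv s a ch x y → (S (x, y) ↔ S (x, y + 1)) := by
    intro x y h1 h2
    have h3 := hinV x y h1
    have h4 := (hterm x y (by omega) (by omega)).2
    rw [hβ2 x (y + 1) h2.1, hβ2 (x - 1) (y + 1) h2.2] at h4
    by_contra h5
    simp only [hd, hv, h1, if_neg h5] at h4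
    norm_num at h4
  have hmid := hCON1 s M a ch hM hs0 hP S hSH hSV
  -- now the bad positions do not contribute
  have hcβ : ∀ x y, c x y * β x y = 0 := by
    intro x y
    rcases Bool.eq_false_or_eq_true (isBad s a ch x y) with h | h
    · have h1 := hmid x y h
      simp only [hc, if_pos h1, zero_mul]
    · rw [hβ2 _ _ h, mul_zero]
  have hcu : ∀ x y, 0 ≤ c x y * u x y := fun x y =>
    mul_nonneg (hc0 x y) (Int.natCast_nonneg _)
  have hdv : ∀ x y, 0 ≤ d x y * v x y := fun x y =>
    mul_nonneg (hd0 x y) (Int.natCast_nonneg _)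
  have hT2 : ∑ x ∈ Finset.range (N + 1), ∑ y ∈ Finset.range (N + 1),
      (c x y * u x y + d x y * v x y) = 0 := by
    refine le_antisymm (le_trans (le_of_eq ?_) hcon) ?_
    · refine Finset.sum_congr rfl ?_
      intro x _
      refine Finset.sum_congr rfl ?_
      intro y _
      rw [mul_sub, hcβ, sub_zero]
    · refine Finset.sum_nonneg ?_
      intro x _
      refine Finset.sum_nonneg ?_
      intro y _
      exact add_nonneg (hcu x y) (hdv x y)
  have hterm2 : ∀ x y, x < N + 1 → y < N + 1 → c x y * u x y = 0 ∧ d x y * v x y = 0 := by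
    intro x y hx hy
    rw [Finset.sum_eq_zero_iff_of_nonneg (fun x _ => Finset.sum_nonneg fun y _ =>
      add_nonneg (hcu x y) (hdv x y))] at hT2
    have h1 := hT2 x (Finset.mem_range.mpr hx)
    rw [Finset.sum_eq_zero_iff_of_nonneg (fun y _ => add_nonneg (hcu x y) (hdv x y))] at h1
    have h2 := h1 y (Finset.mem_range.mpr hy)
    have h3 := hcu x y
    have h4 := hdv x y
    constructor <;> linarith
  have hfin := hCON2 s M a ch hM hs0 hP S
    (by
      intro x y h1
      have h3 := hinH x y h1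
      have h4 := (hterm2 x y (by omega) (by omega)).1
      by_contra h5
      simp only [hc, hu, h1, if_neg h5] at h4
      norm_num at h4)
    (by
      intro x y h1
      have h3 := hinV x y h1
      have h4 := (hterm2 x y (by omega) (by omega)).2
      by_contra h5
      simp only [hd, hv, h1, if_neg h5] at h4
      norm_num at h4)
  exact hSq ((hfin q hq).mpr ((hfin p hp).mp hSp))

end Pool.Agent.Helper31.BC
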